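import Mathlib
import Pool.Agent.Leo4.Stmts
import Pool.Agent.Helper68_Leo4.Basic

/-!
# Squad leo4, module CLO, part A: biquadratic extensions inside a number field
-/

set_option autoImplicit false

open NumberField Module
open Pool.Agent.Helper85_Leo

namespace Pool.Agent.Leo4.H33

/-- the four group -/
def four {G : Type} [Group G] (a b : G) (haa : a * a = 1) (hbb : b * b = 1)
    (hc : a * b = b * a) : Subgroup G where
  carrier := {g | g = 1 ∨ g = a ∨ g = b ∨ g = a * b}
  one_mem' := Or.inl rfl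
  mul_mem' := by
    have e1 : a * (a * b) = b := by rw [← mul_assoc, haa, one_mul]
    have e2 : b * (a * b) = a := by rw [hc, ← mul_assoc, hbb, one_mul]
    have e3 : a * b * a = b := by rw [mul_assoc, ← hc, e1]
    have e4 : a * b * b = a := by rw [mul_assoc, hbb, mul_one]
    have e5 : a * b * (a * b) = 1 := by rw [mul_assoc, e2, haa]
    rintro x y (rfl | rfl | rfl | rfl) (rfl | rfl | rfl | rfl) <;>
      simp only [Set.mem_ofPred_eq, one_mul, mul_one, haa, hbb, e1, e2, e3, e4, e5, ← hc,
        true_or, or_true]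
  inv_mem' := by
    have ia : a⁻¹ = a := inv_eq_of_mul_eq_one_right haa
    have ib : b⁻¹ = b := inv_eq_of_mul_eq_one_right hbb
    rintro x (rfl | rfl | rfl | rfl)
    · exact Or.inl inv_one
    · exact Or.inr (Or.inl ia)
    · exact Or.inr (Or.inr (Or.inl ib))
    · refine Or.inr (Or.inr (Or.inr ?_))
      rw [mul_inv_rev, ia, ib, hc]

theorem card_four {G : Type} [Group G] (a b : G) (haa : a * a = 1) (hbb : b * b = 1)
    (hc : a * b = b * a) (ha : a ≠ 1) (hb : b ≠ 1) (hab : a ≠ b) :
    Nat.card (four a b haa hbb hc) = 4 := by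
  classical
  have h1 : a * b ≠ 1 := by
    intro h
    apply hab
    calc a = a * (b * b) := by rw [hbb, mul_one]
      _ = b := by rw [← mul_assoc, h, one_mul]
  have h2 : a * b ≠ a := fun h => hb (mul_left_cancel (h.trans (mul_one a).symm))
  have h3 : a * b ≠ b := fun h => ha (mul_right_cancel (h.trans (one_mul b).symm))
  have h4 : ((four a b haa hbb hc : Subgroup G) : Set G) = (({1, a, b, a * b} : Finset G) : Set G) := by
    ext x
    simp only [Finset.coe_insert, Finset.coe_singleton, Set.mem_insert_iff,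
      Set.mem_singleton_iff]
    rfl
  have h5 : Nat.card (four a b haa hbb hc) =
      Nat.card ((({1, a, b, a * b} : Finset G) : Set G)) := by
    rw [← h4]
    rfl
  rw [h5, Nat.card_coe_set_eq, Set.ncard_coe_finset, Finset.card_insert_of_notMem,
    Finset.card_insert_of_notMem, Finset.card_insert_of_notMem, Finset.card_singleton]
  · simpa using h3.symm
  · simp only [Finset.mem_insert, Finset.mem_singleton, not_or]
    exact ⟨hab, h2.symm⟩
  · simp only [Finset.mem_insert, Finset.mem_singleton, not_or]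
    exact ⟨ha.symm, hb.symm, h1.symm⟩

/-- Leopoldt's conjecture at 3 for a biquadratic extension of a subfield, in terms of two commuting
involutions -/
theorem biq' (biq : BiqStmt) (E₁ E₂ E₃ L : Type) [Field L] [NumberField L]
    [Field E₁] [NumberField E₁] [Field E₂] [NumberField E₂] [Field E₃] [NumberField E₃]
    [Algebra E₁ L] [Algebra E₂ L] [Algebra E₃ L] (a b : L ≃ₐ[ℚ] L)
    (ha : a ≠ 1) (hb : b ≠ 1) (hab : a ≠ b) (haa : a * a = 1) (hbb : b * b = 1)
    (hc : a * b = b * a)
    (h1 : ∀ x : L, a x = x → ∃ y : E₁, algebraMap E₁ L y = x)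
    (h2 : ∀ x : L, b x = x → ∃ y : E₂, algebraMap E₂ L y = x)
    (h3 : ∀ x : L, a (b x) = x → ∃ y : E₃, algebraMap E₃ L y = x)
    (l1 : LeopoldtAt E₁ 3) (l2 : LeopoldtAt E₂ 3) (l3 : LeopoldtAt E₃ 3) : LeopoldtAt L 3 := by
  have hk : finrank (IntermediateField.fixedField (four a b haa hbb hc)) L = 4 := by
    rw [IntermediateField.finrank_fixedField_eq_card]
    exact card_four a b haa hbb hc ha hb hab
  have ca : ∀ x : IntermediateField.fixedField (four a b haa hbb hc),
      (a : L ≃+* L) (algebraMap _ L x) = algebraMap _ L x :=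
    fun x => x.2 ⟨a, Or.inr (Or.inl rfl)⟩
  have cb : ∀ x : IntermediateField.fixedField (four a b haa hbb hc),
      (b : L ≃+* L) (algebraMap _ L x) = algebraMap _ L x :=
    fun x => x.2 ⟨b, Or.inr (Or.inr (Or.inl rfl))⟩
  obtain ⟨a', ha'⟩ : ∃ a' : L ≃ₐ[IntermediateField.fixedField (four a b haa hbb hc)] L,
      ∀ x, a' x = a x := ⟨AlgEquiv.ofRingEquiv (f := (a : L ≃+* L)) ca, fun _ => rfl⟩
  obtain ⟨b', hb'⟩ : ∃ b' : L ≃ₐ[IntermediateField.fixedField (four a b haa hbb hc)] L,
      ∀ x, b' x = b x := ⟨AlgEquiv.ofRingEquiv (f := (b : L ≃+* L)) cb, fun _ => rfl⟩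
  refine biq (IntermediateField.fixedField (four a b haa hbb hc)) E₁ E₂ E₃ L a' b' hk
    ?_ ?_ ?_ ?_ ?_ ?_ ?_ ?_ ?_ l1 l2 l3
  · intro h
    exact ha (AlgEquiv.ext fun x => by rw [← ha', h]; rfl)
  · intro h
    exact hb (AlgEquiv.ext fun x => by rw [← hb', h]; rfl)
  · intro h
    exact hab (AlgEquiv.ext fun x => by rw [← ha', h, hb'])
  · refine AlgEquiv.ext fun x => ?_
    rw [AlgEquiv.mul_apply, ha', ha']
    exact DFunLike.congr_fun haa x
  · refine AlgEquiv.ext fun x => ?_
    rw [AlgEquiv.mul_apply, hb', hb']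
    exact DFunLike.congr_fun hbb x
  · refine AlgEquiv.ext fun x => ?_
    rw [AlgEquiv.mul_apply, AlgEquiv.mul_apply, ha', hb', hb', ha']
    exact DFunLike.congr_fun hc x
  · intro x hx
    rw [ha'] at hx
    exact h1 x hx
  · intro x hx
    rw [hb'] at hx
    exact h2 x hx
  · intro x hx
    rw [ha', hb'] at hx
    exact h3 x hx

/-- the fixed field of one automorphism -/
theorem mem_fix {L : Type} [Field L] [NumberField L] (g : L ≃ₐ[ℚ] L) (x : L) :
    x ∈ IntermediateField.fixedField (Subgroup.zpowers g) ↔ g x = x := by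
  constructor
  · intro h
    exact h ⟨g, Subgroup.mem_zpowers g⟩
  · rintro h ⟨f, hf⟩
    obtain ⟨n, rfl⟩ := Subgroup.mem_zpowers_iff.1 hf
    have hst : g ∈ MulAction.stabilizer (L ≃ₐ[ℚ] L) x := h
    exact Subgroup.zpow_mem _ hst n

theorem finrank_fix {L : Type} [Field L] [NumberField L] (g : L ≃ₐ[ℚ] L) (hg : g ≠ 1)
    (hgg : g * g = 1) :
    finrank ℚ L = finrank ℚ (IntermediateField.fixedField (Subgroup.zpowers g)) * 2 := by
  rw [← finrank_mul_finrank ℚ (IntermediateField.fixedField (Subgroup.zpowers g)) L,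
    IntermediateField.finrank_fixedField_eq_card, Nat.card_zpowers, orderOf_eq_prime (p := 2)
      (by rw [pow_two]; exact hgg) hg]

theorem rank_le_one (F : Type) [Field F] [NumberField F] (h : finrank ℚ F = 2) :
    Units.rank F ≤ 1 := by
  have h1 := InfinitePlace.card_add_two_mul_card_eq_rank F
  have h2 := InfinitePlace.card_eq_nrRealPlaces_add_nrComplexPlaces F
  rw [Units.rank]
  omega

/-- Leopoldt's conjecture at 3 for a biquadratic extension of the rational numbers -/
theorem quart (biq : BiqStmt) (rqu : RquStmt) (E : Type) [Field E] [NumberField E]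
    (a b : E ≃ₐ[ℚ] E) (h4 : finrank ℚ E = 4) (ha : a ≠ 1) (hb : b ≠ 1) (hab : a ≠ b)
    (haa : a * a = 1) (hbb : b * b = 1) (hc : a * b = b * a) : LeopoldtAt E 3 := by
  have key : ∀ g : E ≃ₐ[ℚ] E, g ≠ 1 → g * g = 1 →
      LeopoldtAt (IntermediateField.fixedField (Subgroup.zpowers g)) 3 := by
    intro g hg hgg
    apply rqu
    apply rank_le_one
    have := finrank_fix g hg hgg
    omega
  have h1 : a * b ≠ 1 := by
    intro h
    apply hab
    calc a = a * (b * b) := by rw [hbb, mul_one]
      _ = b := by rw [← mul_assoc, h, one_mul]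
  have h2 : a * b * (a * b) = 1 := by
    rw [mul_assoc, hc, ← mul_assoc b b a, hbb, one_mul, haa]
  refine biq' biq (IntermediateField.fixedField (Subgroup.zpowers a))
    (IntermediateField.fixedField (Subgroup.zpowers b))
    (IntermediateField.fixedField (Subgroup.zpowers (a * b))) E a b ha hb hab haa hbb hc
    ?_ ?_ ?_ (key a ha haa) (key b hb hbb) (key (a * b) h1 h2)
  · intro x hx
    exact ⟨⟨x, (mem_fix a x).2 hx⟩, rfl⟩
  · intro x hx
    exact ⟨⟨x, (mem_fix b x).2 hx⟩, rfl⟩
  · intro x hx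
    exact ⟨⟨x, (mem_fix (a * b) x).2 hx⟩, rfl⟩

end Pool.Agent.Leo4.H33
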