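import Mathlib
import Pool.Agent.Leo4.Stmts
import Pool.Agent.Helper68_Leo4.Basic

/-!
# Squad leo4, module CLO, part B: conjugation, and the octic field
-/

set_option autoImplicit false

open NumberField Module
open Pool.Agent.Helper85_Leo

namespace Pool.Agent.Leo4.H33

theorem star_dvd {x y : O} (h : x ∣ y) : star x ∣ star y := by
  obtain ⟨z, rfl⟩ := h
  exact ⟨star z, by rw [star_mul']⟩

theorem star_two' : star (2 : O) = 2 := star_ofNat 2

theorem star_three' : star (3 : O) = 3 := star_ofNat 3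

theorem star_four' : star (4 : O) = 4 := star_ofNat 4

theorem good_star {m : O} (h : Good m) : Good (star m) := by
  refine ⟨by rw [e1_star]; exact h.pos2, by rw [e2_star]; exact h.pos1, ?_, ?_, ?_⟩
  · intro x hx
    have h1 := star_dvd hx
    rw [star_star, star_mul'] at h1
    have h2 := h.sqf _ h1
    rw [isUnit_iff_nm] at h2 ⊢
    rwa [nm_star] at h2
  · obtain ⟨ν, c, h1, h2⟩ := h.cls.two
    refine ⟨star ν, star c, ?_, ?_⟩
    · have := congrArg star h1
      rw [star_add, star_pow, star_mul', star_four'] at this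
      exact this
    · intro x hx
      apply h2 (star x)
      have := star_dvd hx
      rw [star_two', star_add, star_add, star_mul', star_pow, star_star, star_star] at this
      exact this
  · intro x hx
    apply h.cls.three (star x)
    have := star_dvd hx
    rw [star_three', star_sub, star_pow, star_star] at this
    exact this

theorem fP_star (a b c : O) : fP (star a) (star b) (star c) = star (fP a b c) := by
  simp only [fP, star_sub, star_pow, star_mul']

theorem fQ_star (a b c d : O) : fQ (star a) (star b) (star c) (star d) = star (fQ a b c d) := by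
  simp only [fQ, star_sub, star_mul']

theorem fR_star (b c d : O) : fR (star b) (star c) (star d) = star (fR b c d) := by
  simp only [fR, star_sub, star_pow, star_mul']

theorem fM_star (a b c d : O) : fM (star a) (star b) (star c) (star d) = star (fM a b c d) := by
  simp only [fM, fP_star, fQ_star, fR_star, star_sub, star_pow, star_mul', star_four']

theorem hasForm_star {m : O} (h : HasForm (star m)) : HasForm m := by
  obtain ⟨a, b, c, d, ha, h1, h2, h3, h4⟩ := h
  refine ⟨star a, star b, star c, star d, ?_, ?_, ?_, ?_, ?_⟩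
  · intro h0
    apply ha
    rw [← star_star a, h0, star_zero]
  · rw [fP_star, e1_star]
    exact h2
  · rw [fP_star, e2_star]
    exact h1
  · rw [fP_star, nm_star, ← nm_star m]
    exact h3
  · rw [fM_star, h4, star_star]

/-! ### the octic field -/

open Polynomial in
/-- rational polynomial with the roots `φ`, `1 - φ`, `± √(3 m₁)`, `± √(3 m₂)` -/
noncomputable def PP (m : O) : Polynomial ℚ :=
  (X ^ 2 - X - 1) * (X ^ 4 - C (3 * (2 * (m.re : ℚ) + m.im)) * X ^ 2 + C (9 * (nm m : ℚ)))

/-- the octic field -/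
noncomputable def Lm (m : O) : IntermediateField ℚ ℝ :=
  IntermediateField.adjoin ℚ {Real.goldenRatio, Real.sqrt (3 * e1 m),
    Real.sqrt (3 * e1 (star m))}

open Polynomial in
theorem PP_map {m : O} (h1 : 0 < e1 m) (h2 : 0 < e2 m) : (PP m).map (algebraMap ℚ ℝ) =
    ((X - C Real.goldenRatio) * (X - C Real.goldenConj)) *
      (((X - C (Real.sqrt (3 * e1 m))) * (X - C (-Real.sqrt (3 * e1 m)))) *
      ((X - C (Real.sqrt (3 * e1 (star m)))) * (X - C (-Real.sqrt (3 * e1 (star m)))))) := by
  have q1 : Real.sqrt (3 * e1 m) ^ 2 = 3 * e1 m := Real.sq_sqrt (by positivity)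
  have q2 : Real.sqrt (3 * e1 (star m)) ^ 2 = 3 * e2 m := by
    rw [Real.sq_sqrt (by rw [e1_star]; positivity), e1_star]
  have ha : Real.goldenRatio + Real.goldenConj = 1 := Real.goldenRatio_add_goldenConj
  have hb : Real.goldenRatio * Real.goldenConj = -1 := Real.goldenRatio_mul_goldenConj
  have ht := tr_eq m
  have hn := nm_eq m
  obtain ⟨c1, hc1⟩ : ∃ c1 : ℚ, c1 = 3 * (2 * (m.re : ℚ) + m.im) := ⟨_, rfl⟩
  obtain ⟨c2, hc2⟩ : ∃ c2 : ℚ, c2 = 9 * (nm m : ℚ) := ⟨_, rfl⟩
  have hP : PP m = (X ^ 2 - X - 1) * (X ^ 4 - C c1 * X ^ 2 + C c2) := by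
    rw [PP, hc1, hc2]
  refine Polynomial.funext fun r => ?_
  rw [hP]
  simp only [Polynomial.map_mul, Polynomial.map_sub, Polynomial.map_add, Polynomial.map_pow,
    Polynomial.map_X, Polynomial.map_one, Polynomial.map_C, eval_mul, eval_sub, eval_add, eval_pow,
    eval_X, eval_C, eval_one]
  have hc1' : algebraMap ℚ ℝ c1 = 3 * (2 * (m.re : ℝ) + m.im) := by
    rw [hc1]
    simp
  have hc2' : algebraMap ℚ ℝ c2 = 9 * (nm m : ℝ) := by
    rw [hc2]
    simp
  rw [hc1', hc2']
  obtain ⟨s, hs⟩ : ∃ s : ℝ, s = Real.sqrt (3 * e1 m) := ⟨_, rfl⟩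
  obtain ⟨t, ht'⟩ : ∃ t : ℝ, t = Real.sqrt (3 * e1 (star m)) := ⟨_, rfl⟩
  rw [← hs] at q1 ⊢
  rw [← ht'] at q2 ⊢
  have e1' : r ^ 2 - r - 1 = (r - Real.goldenRatio) * (r - Real.goldenConj) := by
    linear_combination r * ha - hb
  have e2' : (r ^ 4 - 3 * (2 * (m.re : ℝ) + m.im) * r ^ 2 + 9 * (nm m : ℝ)) =
      (r - s) * (r - -s) * ((r - t) * (r - -t)) := by
    have : (r - s) * (r - -s) * ((r - t) * (r - -t)) = (r ^ 2 - s ^ 2) * (r ^ 2 - t ^ 2) := by ring
    rw [this, q1, q2, ht, hn]
    ring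
  rw [e1', e2']

theorem PP_splits {m : O} (h1 : 0 < e1 m) (h2 : 0 < e2 m) :
    ((PP m).map (algebraMap ℚ ℝ)).Splits := by
  rw [PP_map h1 h2]
  exact ((Polynomial.Splits.X_sub_C _).mul (Polynomial.Splits.X_sub_C _)).mul
    (((Polynomial.Splits.X_sub_C _).mul (Polynomial.Splits.X_sub_C _)).mul
    ((Polynomial.Splits.X_sub_C _).mul (Polynomial.Splits.X_sub_C _)))

theorem mem_roots {m : O} (h1 : 0 < e1 m) (h2 : 0 < e2 m) (x : ℝ) :
    x ∈ (PP m).rootSet ℝ ↔ x = Real.goldenRatio ∨ x = Real.goldenConj ∨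
      x = Real.sqrt (3 * e1 m) ∨ x = -Real.sqrt (3 * e1 m) ∨
      x = Real.sqrt (3 * e1 (star m)) ∨ x = -Real.sqrt (3 * e1 (star m)) := by
  have hm := PP_map h1 h2
  have h0 : (PP m).map (algebraMap ℚ ℝ) ≠ 0 := by
    rw [hm]
    exact mul_ne_zero (mul_ne_zero (Polynomial.X_sub_C_ne_zero _) (Polynomial.X_sub_C_ne_zero _))
      (mul_ne_zero (mul_ne_zero (Polynomial.X_sub_C_ne_zero _) (Polynomial.X_sub_C_ne_zero _))
      (mul_ne_zero (Polynomial.X_sub_C_ne_zero _) (Polynomial.X_sub_C_ne_zero _)))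
  have h0' : PP m ≠ 0 := by
    intro h
    rw [h, Polynomial.map_zero] at h0
    exact h0 rfl
  rw [Polynomial.mem_rootSet, Polynomial.aeval_def, ← Polynomial.eval_map, hm]
  simp only [Polynomial.eval_mul, Polynomial.eval_sub, Polynomial.eval_X, Polynomial.eval_C,
    mul_eq_zero, sub_eq_zero]
  constructor
  · rintro ⟨_, (h | h) | ((h | h) | (h | h))⟩
    · exact Or.inl h
    · exact Or.inr (Or.inl h)
    · exact Or.inr (Or.inr (Or.inl h))
    · exact Or.inr (Or.inr (Or.inr (Or.inl h)))
    · exact Or.inr (Or.inr (Or.inr (Or.inr (Or.inl h))))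
    · exact Or.inr (Or.inr (Or.inr (Or.inr (Or.inr h))))
  · intro h
    refine ⟨h0', ?_⟩
    rcases h with h | h | h | h | h | h
    · exact Or.inl (Or.inl h)
    · exact Or.inl (Or.inr h)
    · exact Or.inr (Or.inl (Or.inl h))
    · exact Or.inr (Or.inl (Or.inr h))
    · exact Or.inr (Or.inr (Or.inl h))
    · exact Or.inr (Or.inr (Or.inr h))

theorem Lm_eq {m : O} (h1 : 0 < e1 m) (h2 : 0 < e2 m) :
    IntermediateField.adjoin ℚ ((PP m).rootSet ℝ) = Lm m := by
  apply le_antisymm
  · rw [IntermediateField.adjoin_le_iff]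
    intro x hx
    have g1 : Real.goldenRatio ∈ Lm m :=
      IntermediateField.subset_adjoin ℚ _ (by simp)
    have g2 : Real.sqrt (3 * e1 m) ∈ Lm m :=
      IntermediateField.subset_adjoin ℚ _ (by simp)
    have g3 : Real.sqrt (3 * e1 (star m)) ∈ Lm m :=
      IntermediateField.subset_adjoin ℚ _ (by simp)
    rcases (mem_roots h1 h2 x).1 hx with rfl | rfl | rfl | rfl | rfl | rfl
    · exact g1
    · have : Real.goldenConj = 1 - Real.goldenRatio := by
        have := Real.goldenRatio_add_goldenConj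
        linarith
      rw [this]
      exact sub_mem (one_mem _) g1
    · exact g2
    · exact neg_mem g2
    · exact g3
    · exact neg_mem g3
  · unfold Lm
    rw [IntermediateField.adjoin_le_iff]
    intro x hx
    apply IntermediateField.subset_adjoin
    rw [mem_roots h1 h2]
    simp only [Set.mem_insert_iff, Set.mem_singleton_iff] at hx
    rcases hx with h | h | h
    · exact Or.inl h
    · exact Or.inr (Or.inr (Or.inl h))
    · exact Or.inr (Or.inr (Or.inr (Or.inr (Or.inl h))))

theorem Lm_nf {m : O} (h1 : 0 < e1 m) (h2 : 0 < e2 m) :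
    NumberField (Lm m) ∧ IsGalois ℚ (Lm m) := by
  have h := IntermediateField.adjoin_rootSet_isSplittingField (PP_splits h1 h2)
  have hn := Normal.of_isSplittingField (hFEp := h)
  have hf : FiniteDimensional ℚ (IntermediateField.adjoin ℚ ((PP m).rootSet ℝ)) :=
    @Polynomial.IsSplittingField.finiteDimensional ℚ _ _ _ _ (PP m) h
  rw [Lm_eq h1 h2] at hn hf
  have hnf : NumberField (Lm m) := { to_charZero := inferInstance, to_finiteDimensional := hf }
  refine ⟨hnf, ?_⟩
  have : Normal ℚ (Lm m) := hn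
  exact { to_isSeparable := inferInstance, to_normal := this }

theorem Km_le (m : O) : Km m ≤ Lm m := by
  unfold Km Lm
  apply IntermediateField.adjoin.mono
  intro x hx
  simp only [Set.mem_insert_iff, Set.mem_singleton_iff] at hx ⊢
  rcases hx with h | h
  · exact Or.inl h
  · exact Or.inr (Or.inl h)

theorem Km_le' (m : O) : Km (star m) ≤ Lm m := by
  unfold Km Lm
  apply IntermediateField.adjoin.mono
  intro x hx
  simp only [Set.mem_insert_iff, Set.mem_singleton_iff] at hx ⊢
  rcases hx with h | h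
  · exact Or.inl h
  · exact Or.inr (Or.inr h)

end Pool.Agent.Leo4.H33
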