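import Mathlib
import Pool.Agent.Leo4.Stmts
import Pool.Agent.Helper68_Leo4.Basic
import Pool.Agent.Helper33_Leo4.CloA
import Pool.Agent.Helper33_Leo4.CloB

/-!
# Squad leo4, module CLO: Leopoldt's conjecture at 3 for the octic Galois closure

`L = ℚ(φ, √(3m₁), √(3m₂))` is biquadratic over `ℚ(φ)` with the three intermediate fields
`Km m`, `Km (star m)` and a biquadratic extension of `ℚ`.
-/

set_option autoImplicit false

open NumberField Module
open Pool.Agent.Helper85_Leo

namespace Pool.Agent.Leo4.H33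

/-- an intermediate field of index two -/
theorem two (m : O) [NumberField (Lm m)] [IsGalois ℚ (Lm m)] (K : IntermediateField ℚ ℝ)
    (A : Algebra K (Lm m)) (hA : ∀ y : K, (algebraMap K (Lm m) y : ℝ) = y)
    (a : Lm m ≃ₐ[ℚ] Lm m) (ha : a ≠ 1)
    (hfix : ∀ y : Lm m, (y : ℝ) ∈ K → a y = y)
    (hgen : ∀ σ : Lm m ≃ₐ[ℚ] Lm m, (∀ y : Lm m, (y : ℝ) ∈ K → σ y = y) → σ = 1 ∨ σ = a) :
    finrank K (Lm m) = 2 ∧ ∀ x : Lm m, a x = x → ∃ y : K, algebraMap K (Lm m) y = x := by
  have hT : IsScalarTower ℚ K (Lm m) := inferInstance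
  have hG : IsGalois K (Lm m) := IsGalois.tower_top_of_isGalois ℚ K (Lm m)
  have hF : FiniteDimensional K (Lm m) := FiniteDimensional.right ℚ K (Lm m)
  have hrange : ∀ y : Lm m, (y : ℝ) ∈ K → ∃ z : K, algebraMap K (Lm m) z = y := by
    intro y hy
    exact ⟨⟨y, hy⟩, Subtype.ext (hA ⟨y, hy⟩)⟩
  have hres : ∀ σ : Lm m ≃ₐ[K] Lm m, (∀ x, σ x = x) ∨ (∀ x, σ x = a x) := by
    intro σ
    rcases hgen (σ.restrictScalars ℚ) (by
      intro y hy
      obtain ⟨z, rfl⟩ := hrange y hy
      exact σ.commutes z) with h | h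
    · left
      intro x
      exact DFunLike.congr_fun h x
    · right
      intro x
      exact DFunLike.congr_fun h x
  have ha' : ∀ z : K, (a : Lm m ≃+* Lm m) (algebraMap K (Lm m) z) = algebraMap K (Lm m) z :=
    fun z => hfix _ (by rw [hA z]; exact z.2)
  obtain ⟨a', haa⟩ : ∃ a' : Lm m ≃ₐ[K] Lm m, ∀ x, a' x = a x :=
    ⟨AlgEquiv.ofRingEquiv (f := (a : Lm m ≃+* Lm m)) ha', fun _ => rfl⟩
  refine ⟨?_, ?_⟩
  · rw [← IsGalois.card_aut_eq_finrank, Nat.card_eq_two_iff]
    refine ⟨1, a', ?_, ?_⟩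
    · intro h
      apply ha
      refine AlgEquiv.ext fun x => ?_
      rw [← haa, ← h]
      rfl
    · refine Set.eq_univ_of_forall fun σ => ?_
      rcases hres σ with h | h
      · left
        exact AlgEquiv.ext h
      · right
        exact AlgEquiv.ext fun x => (h x).trans (haa x).symm
  · intro x hx
    refine (IsGalois.mem_range_algebraMap_iff_fixed (F := K) (E := Lm m) x).2 ?_
    intro σ
    rcases hres σ with h | h
    · exact h x
    · rw [h x, hx]

/-- restriction of an automorphism to the fixed field of a commuting automorphism -/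
theorem restr {L : Type} [Field L] [NumberField L] (h g : L ≃ₐ[ℚ] L)
    (hc : ∀ x, h (g x) = g (h x)) :
    ∃ g' : IntermediateField.fixedField (Subgroup.zpowers h) ≃ₐ[ℚ]
      IntermediateField.fixedField (Subgroup.zpowers h),
      ∀ x, ((g' x : IntermediateField.fixedField (Subgroup.zpowers h)) : L) = g (x : L) := by
  have h1 : ∀ x : IntermediateField.fixedField (Subgroup.zpowers h),
      g (x : L) ∈ IntermediateField.fixedField (Subgroup.zpowers h) := by
    intro x
    rw [mem_fix, hc, (mem_fix h x).1 x.2]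
  have h2 : ∀ x : IntermediateField.fixedField (Subgroup.zpowers h),
      g.symm (x : L) ∈ IntermediateField.fixedField (Subgroup.zpowers h) := by
    intro x
    rw [mem_fix]
    apply g.injective
    rw [← hc, AlgEquiv.apply_symm_apply, (mem_fix h x).1 x.2]
  let e : IntermediateField.fixedField (Subgroup.zpowers h) ≃+*
      IntermediateField.fixedField (Subgroup.zpowers h) :=
    { toFun := fun x => ⟨g (x : L), h1 x⟩
      invFun := fun x => ⟨g.symm (x : L), h2 x⟩
      left_inv := fun x => Subtype.ext (g.symm_apply_apply _)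
      right_inv := fun x => Subtype.ext (g.apply_symm_apply _)
      map_mul' := fun x y => Subtype.ext (map_mul g _ _)
      map_add' := fun x y => Subtype.ext (map_add g _ _) }
  refine ⟨AlgEquiv.ofRingEquiv (f := e) ?_, fun x => rfl⟩
  intro r
  rw [eq_ratCast (algebraMap ℚ _) r]
  exact map_ratCast e r

/-- the automorphism group of `Lm m` in terms of the three generators -/
theorem ext3 {m : O} (f s t : Lm m) (hf : (f : ℝ) = Real.goldenRatio)
    (hs : (s : ℝ) = Real.sqrt (3 * e1 m)) (ht : (t : ℝ) = Real.sqrt (3 * e1 (star m)))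
    (g h : Lm m ≃ₐ[ℚ] Lm m) (h1 : g f = h f) (h2 : g s = h s) (h3 : g t = h t) : g = h := by
  have key : (g : Lm m →ₐ[ℚ] Lm m) = (h : Lm m →ₐ[ℚ] Lm m) := by
    unfold Lm at *
    apply IntermediateField.adjoin_algHom_ext
    intro x hx
    simp only [Set.mem_insert_iff, Set.mem_singleton_iff] at hx
    rcases hx with h' | h' | h'
    · have : (⟨x, IntermediateField.subset_adjoin ℚ _ hx⟩ : IntermediateField.adjoin ℚ _) = f :=
        Subtype.ext (h'.trans hf.symm)
      rw [this]
      exact h1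
    · have : (⟨x, IntermediateField.subset_adjoin ℚ _ hx⟩ : IntermediateField.adjoin ℚ _) = s :=
        Subtype.ext (h'.trans hs.symm)
      rw [this]
      exact h2
    · have : (⟨x, IntermediateField.subset_adjoin ℚ _ hx⟩ : IntermediateField.adjoin ℚ _) = t :=
        Subtype.ext (h'.trans ht.symm)
      rw [this]
      exact h3
  exact AlgEquiv.coe_toAlgHom_injective key

/-- an automorphism which fixes generators fixes the field -/
theorem fix_of_gen {m : O} [NumberField (Lm m)] (S : Set ℝ) (hS : ∀ x ∈ S, x ∈ Lm m)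
    (g : Lm m ≃ₐ[ℚ] Lm m)
    (hg : ∀ y : Lm m, (y : ℝ) ∈ S → g y = y) :
    ∀ y : Lm m, (y : ℝ) ∈ IntermediateField.adjoin ℚ S → g y = y := by
  have h1 : IntermediateField.adjoin ℚ S ≤
      IntermediateField.lift (IntermediateField.fixedField (Subgroup.zpowers g)) := by
    rw [IntermediateField.adjoin_le_iff]
    intro x hx
    exact (IntermediateField.mem_lift (⟨x, hS x hx⟩ : Lm m)).2 ((mem_fix g _).2 (hg _ hx))
  intro y hy
  exact (mem_fix g y).1 ((IntermediateField.mem_lift y).1 (h1 hy))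

theorem gal_of_eq {K L : IntermediateField ℚ ℝ} (h : L = K) (g : IsGalois ℚ L) : IsGalois ℚ K := by
  subst h
  exact g

theorem sq_eq {L : Type} [Field L] {x y : L} (h : x ^ 2 = y ^ 2) : x = y ∨ x = -y :=
  sq_eq_sq_iff_eq_or_eq_neg.1 h

theorem ev_one_sub {L : Type} [Field L] (f : L) (m : O) : ev (1 - f) m = ev f (star m) := by
  simp only [ev, QuadraticAlgebra.re_star, QuadraticAlgebra.im_star]
  push_cast
  ring

theorem coe_ev {m' : O} (f : Lm m') (m : O) : ((ev f m : Lm m') : ℝ) = ev (f : ℝ) m := by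
  simp [ev]

theorem clo (key : KeyStmt) (biq : BiqStmt) (rqu : RquStmt) (fld : FldStmt)
    (leo : Pool.Agent.Leo3.LeoStmt) : CloStmt := by
  intro m hm hform hgal
  have hm' := good_star hm
  have hform' : ¬ HasForm (star m) := fun h => hform (hasForm_star h)
  obtain ⟨nf, gal⟩ := Lm_nf hm.pos1 hm.pos2
  obtain ⟨nf1, d1, _, _, _, f1, r1, hf1, hr1⟩ := fld m hm
  obtain ⟨nf2, d2, _, _, _, f2, r2, hf2, hr2⟩ := fld (star m) hm'
  have leo1 : LeopoldtAt (Km m) 3 := by
    obtain ⟨a, b⟩ := key (Km m) f1 r1 m d1 hf1 hr1 hm hform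
    exact leo _ a b
  have leo2 : LeopoldtAt (Km (star m)) 3 := by
    obtain ⟨a, b⟩ := key (Km (star m)) f2 r2 (star m) d2 hf2 hr2 hm' hform'
    exact leo _ a b
  -- generators
  obtain ⟨f, hf⟩ : ∃ f : Lm m, (f : ℝ) = Real.goldenRatio :=
    ⟨⟨_, IntermediateField.subset_adjoin ℚ _ (by simp)⟩, rfl⟩
  obtain ⟨s, hs⟩ : ∃ s : Lm m, (s : ℝ) = Real.sqrt (3 * e1 m) :=
    ⟨⟨_, IntermediateField.subset_adjoin ℚ _ (by simp)⟩, rfl⟩
  obtain ⟨t, ht⟩ : ∃ t : Lm m, (t : ℝ) = Real.sqrt (3 * e1 (star m)) :=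
    ⟨⟨_, IntermediateField.subset_adjoin ℚ _ (by simp)⟩, rfl⟩
  have hp1 := hm.pos1
  have hp2 := hm'.pos1
  have hff : f ^ 2 = f + 1 := by
    apply Subtype.ext
    push_cast
    rw [hf]
    exact gold_sq
  have hss : s ^ 2 = 3 * ev f m := by
    apply Subtype.ext
    push_cast
    rw [hs, Real.sq_sqrt (by positivity), coe_ev, hf]
    rfl
  have htt : t ^ 2 = 3 * ev f (star m) := by
    apply Subtype.ext
    push_cast
    rw [ht, Real.sq_sqrt (by positivity), coe_ev, hf]
    rfl
  have hs0 : s ≠ 0 := by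
    intro h
    rw [h] at hs
    have : (0 : ℝ) < Real.sqrt (3 * e1 m) := Real.sqrt_pos.2 (by positivity)
    rw [← hs] at this
    simp at this
  have ht0 : t ≠ 0 := by
    intro h
    rw [h] at ht
    have : (0 : ℝ) < Real.sqrt (3 * e1 (star m)) := Real.sqrt_pos.2 (by positivity)
    rw [← ht] at this
    simp at this
  have hext := ext3 f s t hf hs ht
  have hneg : ∀ x : Lm m, x ≠ 0 → -x ≠ x := by
    intro x hx h
    apply hx
    have : (2 : Lm m) * x = 0 := by linear_combination -h
    rcases mul_eq_zero.1 this with h' | h'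
    · exact absurd h' two_ne_zero
    · exact h'
  have hf1f : (1 : Lm m) - f ≠ f := by
    intro h
    have h5 : (5 : Lm m) = 0 := by linear_combination (-4 : Lm m) * hff + (-(2 * f) + 1) * h
    exact absurd h5 (by norm_num)
  -- values of automorphisms
  have v1 : ∀ g : Lm m ≃ₐ[ℚ] Lm m, g f = f ∨ g f = 1 - f := by
    intro g
    have h1 : (g f) ^ 2 = g f + 1 := by rw [← map_pow, hff, map_add, map_one]
    have h2 : (g f - f) * (g f - (1 - f)) = 0 := by linear_combination h1 - hff
    rcases mul_eq_zero.1 h2 with h | h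
    · exact Or.inl (sub_eq_zero.1 h)
    · exact Or.inr (sub_eq_zero.1 h)
  have v2 : ∀ g : Lm m ≃ₐ[ℚ] Lm m, (g s) ^ 2 = 3 * ev (g f) m := by
    intro g
    rw [← map_pow, hss, map_mul, map_ofNat]
    congr 1
    exact map_ev (g : Lm m →+* Lm m) f m
  have v3 : ∀ g : Lm m ≃ₐ[ℚ] Lm m, (g t) ^ 2 = 3 * ev (g f) (star m) := by
    intro g
    rw [← map_pow, htt, map_mul, map_ofNat]
    congr 1
    exact map_ev (g : Lm m →+* Lm m) f (star m)
  have v2f : ∀ g : Lm m ≃ₐ[ℚ] Lm m, g f = f → g s = s ∨ g s = -s := by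
    intro g hg
    apply sq_eq
    rw [v2, hg, hss]
  have v3f : ∀ g : Lm m ≃ₐ[ℚ] Lm m, g f = f → g t = t ∨ g t = -t := by
    intro g hg
    apply sq_eq
    rw [v3, hg, htt]
  have w2f : ∀ g : Lm m ≃ₐ[ℚ] Lm m, g f = 1 - f → g s = t ∨ g s = -t := by
    intro g hg
    apply sq_eq
    rw [v2, hg, ev_one_sub, htt]
  have w3f : ∀ g : Lm m ≃ₐ[ℚ] Lm m, g f = 1 - f → g t = s ∨ g t = -s := by
    intro g hg
    apply sq_eq
    rw [v3, hg, ev_one_sub, star_star, hss]
  -- membership in the quartic fields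
  have fK : (f : ℝ) ∈ Km m := by
    rw [hf]; exact IntermediateField.subset_adjoin ℚ _ (by simp)
  have sK : (s : ℝ) ∈ Km m := by
    rw [hs]; exact IntermediateField.subset_adjoin ℚ _ (by simp)
  have fK' : (f : ℝ) ∈ Km (star m) := by
    rw [hf]; exact IntermediateField.subset_adjoin ℚ _ (by simp)
  have tK' : (t : ℝ) ∈ Km (star m) := by
    rw [ht]; exact IntermediateField.subset_adjoin ℚ _ (by simp)
  -- fixed elements
  have fixK : ∀ g : Lm m ≃ₐ[ℚ] Lm m, g f = f → g s = s → ∀ y : Lm m, (y : ℝ) ∈ Km m → g y = y := by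
    intro g h1 h2
    refine fix_of_gen _ (fun x hx => Km_le m (IntermediateField.subset_adjoin ℚ _ hx)) g ?_
    intro y hy
    simp only [Set.mem_insert_iff, Set.mem_singleton_iff] at hy
    rcases hy with h | h
    · have : y = f := Subtype.ext (h.trans hf.symm)
      rw [this, h1]
    · have : y = s := Subtype.ext (h.trans hs.symm)
      rw [this, h2]
  have fixK' : ∀ g : Lm m ≃ₐ[ℚ] Lm m, g f = f → g t = t →
      ∀ y : Lm m, (y : ℝ) ∈ Km (star m) → g y = y := by
    intro g h1 h2
    refine fix_of_gen _ (fun x hx => Km_le' m (IntermediateField.subset_adjoin ℚ _ hx)) g ?_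
    intro y hy
    simp only [Set.mem_insert_iff, Set.mem_singleton_iff] at hy
    rcases hy with h | h
    · have : y = f := Subtype.ext (h.trans hf.symm)
      rw [this, h1]
    · have : y = t := Subtype.ext (h.trans ht.symm)
      rw [this, h2]
  obtain ⟨A, hA⟩ : ∃ A : Algebra (Km m) (Lm m), ∀ y : Km m, (algebraMap (Km m) (Lm m) y : ℝ) = y :=
    ⟨(IntermediateField.inclusion (Km_le m)).toRingHom.toAlgebra, fun _ => rfl⟩
  obtain ⟨A', hA'⟩ : ∃ A : Algebra (Km (star m)) (Lm m), ∀ y : Km (star m),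
      (algebraMap (Km (star m)) (Lm m) y : ℝ) = y :=
    ⟨(IntermediateField.inclusion (Km_le' m)).toRingHom.toAlgebra, fun _ => rfl⟩
  -- the automorphism a
  obtain ⟨a, af, as, at'⟩ : ∃ a : Lm m ≃ₐ[ℚ] Lm m, a f = f ∧ a s = s ∧ a t = -t := by
    by_contra hno
    apply hgal
    have hT : IsScalarTower ℚ (Km m) (Lm m) := inferInstance
    have hG : IsGalois (Km m) (Lm m) := IsGalois.tower_top_of_isGalois ℚ (Km m) (Lm m)
    have hF : FiniteDimensional (Km m) (Lm m) := FiniteDimensional.right ℚ (Km m) (Lm m)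
    obtain ⟨y, hy⟩ := (IsGalois.mem_range_algebraMap_iff_fixed (F := Km m) (E := Lm m) t).2 (by
      intro σ
      have e1 : σ f = f := by
        have := σ.commutes ⟨f, fK⟩
        rwa [show algebraMap (Km m) (Lm m) ⟨f, fK⟩ = f from Subtype.ext (hA _)] at this
      have e2 : σ s = s := by
        have := σ.commutes ⟨s, sK⟩
        rwa [show algebraMap (Km m) (Lm m) ⟨s, sK⟩ = s from Subtype.ext (hA _)] at this
      rcases v3f (σ.restrictScalars ℚ) e1 with h | h
      · exact h
      · exact absurd ⟨σ.restrictScalars ℚ, e1, e2, h⟩ hno)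
    have tK : (t : ℝ) ∈ Km m := by
      rw [← hy, hA]
      exact y.2
    have hle : Lm m ≤ Km m := by
      unfold Lm
      rw [IntermediateField.adjoin_le_iff]
      intro x hx
      simp only [Set.mem_insert_iff, Set.mem_singleton_iff] at hx
      rcases hx with h | h | h
      · rw [h, ← hf]; exact fK
      · rw [h, ← hs]; exact sK
      · rw [h, ← ht]; exact tK
    have heq : Lm m = Km m := le_antisymm hle (Km_le m)
    exact gal_of_eq heq gal
  -- the automorphism c
  obtain ⟨c, cf⟩ : ∃ c : Lm m ≃ₐ[ℚ] Lm m, c f = 1 - f := by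
    by_contra hno
    obtain ⟨q, hq⟩ := (IsGalois.mem_range_algebraMap_iff_fixed (F := ℚ) (E := Lm m) f).2 (by
      intro σ
      rcases v1 σ with h | h
      · exact h
      · exact absurd ⟨σ, h⟩ hno)
    have h1 : (f : ℝ) = (q : ℝ) := by
      rw [← hq, eq_ratCast]
      simp
    rw [hf] at h1
    exact Real.goldenRatio_irrational ⟨q, h1.symm⟩
  obtain ⟨δ, hδ, cs⟩ : ∃ δ : Lm m, (δ = 1 ∨ δ = -1) ∧ c s = δ * t := by
    rcases w2f c cf with h | h
    · exact ⟨1, Or.inl rfl, by rw [h, one_mul]⟩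
    · exact ⟨-1, Or.inr rfl, by rw [h]; ring⟩
  obtain ⟨ε, hε, ct⟩ : ∃ ε : Lm m, (ε = 1 ∨ ε = -1) ∧ c t = ε * s := by
    rcases w3f c cf with h | h
    · exact ⟨1, Or.inl rfl, by rw [h, one_mul]⟩
    · exact ⟨-1, Or.inr rfl, by rw [h]; ring⟩
  have gδ : ∀ g : Lm m ≃ₐ[ℚ] Lm m, g δ = δ := by
    intro g
    rcases hδ with rfl | rfl
    · exact map_one g
    · rw [map_neg, map_one]
  have gε : ∀ g : Lm m ≃ₐ[ℚ] Lm m, g ε = ε := by
    intro g
    rcases hε with rfl | rfl
    · exact map_one g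
    · rw [map_neg, map_one]
  have δδ : δ * δ = 1 := by rcases hδ with rfl | rfl <;> ring
  have εε : ε * ε = 1 := by rcases hε with rfl | rfl <;> ring
  -- the automorphism b
  obtain ⟨b, bf, bs, bt⟩ : ∃ b : Lm m ≃ₐ[ℚ] Lm m, b f = f ∧ b s = -s ∧ b t = t := by
    have ccf : c.symm f = 1 - f := by
      apply c.injective
      rw [AlgEquiv.apply_symm_apply, map_sub, map_one, cf]
      ring
    have ccs : c.symm s = ε * t := by
      apply c.injective
      rw [AlgEquiv.apply_symm_apply, map_mul, gε, ct, ← mul_assoc, εε, one_mul]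
    have cct : c.symm t = δ * s := by
      apply c.injective
      rw [AlgEquiv.apply_symm_apply, map_mul, gδ, cs, ← mul_assoc, δδ, one_mul]
    refine ⟨c * a * c.symm, ?_, ?_, ?_⟩
    · rw [AlgEquiv.mul_apply, AlgEquiv.mul_apply, ccf, map_sub, map_one, af, map_sub, map_one, cf]
      ring
    · rw [AlgEquiv.mul_apply, AlgEquiv.mul_apply, ccs, map_mul, gε, at', map_mul, gε, map_neg, ct]
      linear_combination (-s) * εε
    · rw [AlgEquiv.mul_apply, AlgEquiv.mul_apply, cct, map_mul, gδ, as, map_mul, gδ, cs]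
      linear_combination t * δδ
  have a1 : a ≠ 1 := by
    intro h
    rw [h] at at'
    exact hneg t ht0 at'.symm
  have b1 : b ≠ 1 := by
    intro h
    rw [h] at bs
    exact hneg s hs0 bs.symm
  have ab : a ≠ b := by
    intro h
    rw [h] at as
    rw [as] at bs
    exact hneg s hs0 bs.symm
  have aa : a * a = 1 := by
    apply hext
    · rw [AlgEquiv.mul_apply, af, af]; rfl
    · rw [AlgEquiv.mul_apply, as, as]; rfl
    · rw [AlgEquiv.mul_apply, at', map_neg, at', neg_neg]; rfl
  have bb : b * b = 1 := by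
    apply hext
    · rw [AlgEquiv.mul_apply, bf, bf]; rfl
    · rw [AlgEquiv.mul_apply, bs, map_neg, bs, neg_neg]; rfl
    · rw [AlgEquiv.mul_apply, bt, bt]; rfl
  have hab : a * b = b * a := by
    apply hext
    · rw [AlgEquiv.mul_apply, AlgEquiv.mul_apply, af, bf, af]
    · rw [AlgEquiv.mul_apply, AlgEquiv.mul_apply, as, bs, map_neg, as]
    · rw [AlgEquiv.mul_apply, AlgEquiv.mul_apply, at', map_neg, bt, at']
  obtain ⟨hd1, hr1'⟩ := two m (Km m) A hA a a1 (fixK a af as) (by
    intro σ hσ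
    rcases v3f σ (hσ f fK) with h | h
    · left
      exact hext _ _ (hσ f fK) (hσ s sK) h
    · right
      exact hext _ _ ((hσ f fK).trans af.symm) ((hσ s sK).trans as.symm) (h.trans at'.symm))
  obtain ⟨hd2, hr2'⟩ := two m (Km (star m)) A' hA' b b1 (fixK' b bf bt) (by
    intro σ hσ
    rcases v2f σ (hσ f fK') with h | h
    · left
      exact hext _ _ (hσ f fK') h (hσ t tK')
    · right
      exact hext _ _ ((hσ f fK').trans bf.symm) (h.trans bs.symm) ((hσ t tK').trans bt.symm))
  refine ⟨Lm m, inferInstance, nf, A, gal, hd1, ?_⟩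
  -- the third field
  obtain ⟨h, hh⟩ : ∃ h : Lm m ≃ₐ[ℚ] Lm m, h = a * b := ⟨_, rfl⟩
  have hhf : h f = f := by rw [hh, AlgEquiv.mul_apply, bf, af]
  have hhs : h s = -s := by rw [hh, AlgEquiv.mul_apply, bs, map_neg, as]
  have hht : h t = -t := by rw [hh, AlgEquiv.mul_apply, bt, at']
  have h1 : h ≠ 1 := by
    intro h'
    rw [h'] at hhs
    exact hneg s hs0 hhs.symm
  have hhh : h * h = 1 := by
    apply hext
    · rw [AlgEquiv.mul_apply, hhf, hhf]; rfl
    · rw [AlgEquiv.mul_apply, hhs, map_neg, hhs, neg_neg]; rfl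
    · rw [AlgEquiv.mul_apply, hht, map_neg, hht, neg_neg]; rfl
  have hha : h * a = a * h := by
    apply hext
    · rw [AlgEquiv.mul_apply, AlgEquiv.mul_apply, af, hhf, af]
    · rw [AlgEquiv.mul_apply, AlgEquiv.mul_apply, as, hhs, map_neg, as]
    · rw [AlgEquiv.mul_apply, AlgEquiv.mul_apply, at', hht, map_neg, map_neg, hht, at']
  have hhc : h * c = c * h := by
    apply hext
    · rw [AlgEquiv.mul_apply, AlgEquiv.mul_apply, cf, hhf, cf, map_sub, map_one, hhf]
    · rw [AlgEquiv.mul_apply, AlgEquiv.mul_apply, cs, hhs, map_mul, gδ, hht, map_neg, cs]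
      ring
    · rw [AlgEquiv.mul_apply, AlgEquiv.mul_apply, ct, hht, map_mul, gε, hhs, map_neg, ct]
      ring
  have hac : a * c = h * (c * a) := by
    apply hext
    · rw [AlgEquiv.mul_apply, AlgEquiv.mul_apply, AlgEquiv.mul_apply, cf, af, map_sub, map_one,
        af, cf, map_sub, map_one, hhf]
    · rw [AlgEquiv.mul_apply, AlgEquiv.mul_apply, AlgEquiv.mul_apply, cs, as, cs, map_mul, gδ,
        at', map_mul, gδ, hht]
    · rw [AlgEquiv.mul_apply, AlgEquiv.mul_apply, AlgEquiv.mul_apply, ct, at', map_neg, ct,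
        map_mul, gε, as, map_neg, map_mul, gε, hhs]
      ring
  have hcc : c * c = 1 ∨ c * c = h := by
    have e1 : (c * c) f = f := by
      rw [AlgEquiv.mul_apply, cf, map_sub, map_one, cf]
      ring
    have e2 : (c * c) s = (δ * ε) * s := by
      rw [AlgEquiv.mul_apply, cs, map_mul, gδ, ct]
      ring
    have e3 : (c * c) t = (δ * ε) * t := by
      rw [AlgEquiv.mul_apply, ct, map_mul, gε, cs]
      ring
    have e4 : δ * ε = 1 ∨ δ * ε = -1 := by
      rcases hδ with rfl | rfl <;> rcases hε with rfl | rfl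
      · left; ring
      · right; ring
      · right; ring
      · left; ring
    rcases e4 with e | e
    · left
      apply hext
      · rw [e1]; rfl
      · rw [e2, e, one_mul]; rfl
      · rw [e3, e, one_mul]; rfl
    · right
      apply hext
      · rw [e1, hhf]
      · rw [e2, e, hhs]; ring
      · rw [e3, e, hht]; ring
  have app : ∀ {g g' : Lm m ≃ₐ[ℚ] Lm m}, g = g' → ∀ x, g x = g' x := fun h x => by rw [h]
  have leo3 : LeopoldtAt (IntermediateField.fixedField (Subgroup.zpowers h)) 3 := by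
    obtain ⟨a', ha'⟩ := restr h a (app hha)
    obtain ⟨c', hc'⟩ := restr h c (app hhc)
    have h8 := finrank_fix h h1 hhh
    have h8' : finrank ℚ (Lm m) = 8 := by
      rw [← finrank_mul_finrank ℚ (Km m) (Lm m), d1, hd1]
    have fE : f ∈ IntermediateField.fixedField (Subgroup.zpowers h) := (mem_fix h f).2 hhf
    have stE : s * t ∈ IntermediateField.fixedField (Subgroup.zpowers h) := by
      rw [mem_fix, map_mul, hhs, hht]
      ring
    refine quart biq rqu _ a' c' (by omega) ?_ ?_ ?_ ?_ ?_ ?_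
    · intro h'
      have e := ha' ⟨s * t, stE⟩
      rw [h'] at e
      have e' : s * t = a (s * t) := e
      rw [map_mul, as, at'] at e'
      exact hneg (s * t) (mul_ne_zero hs0 ht0) (by rw [← mul_neg]; exact e'.symm)
    · intro h'
      have e := hc' ⟨f, fE⟩
      rw [h'] at e
      have e' : f = c f := e
      rw [cf] at e'
      exact hf1f e'.symm
    · intro h'
      have e := hc' ⟨f, fE⟩
      rw [← h', ha'] at e
      have e' : a f = c f := e
      rw [cf, af] at e'
      exact hf1f e'.symm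
    · refine AlgEquiv.ext fun x => Subtype.ext ?_
      rw [AlgEquiv.mul_apply, ha', ha']
      exact app aa _
    · refine AlgEquiv.ext fun x => Subtype.ext ?_
      rw [AlgEquiv.mul_apply, hc', hc']
      rcases hcc with e | e
      · exact app e _
      · exact (app e _).trans ((mem_fix h _).1 x.2)
    · refine AlgEquiv.ext fun x => Subtype.ext ?_
      rw [AlgEquiv.mul_apply, AlgEquiv.mul_apply, ha', hc', hc', ha']
      refine (app hac _).trans ?_
      have := (mem_fix h _).1 (c' (a' x)).2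
      rw [hc', ha'] at this
      exact this
  exact biq' biq (Km m) (Km (star m)) (IntermediateField.fixedField (Subgroup.zpowers h)) (Lm m)
    a b a1 b1 ab aa bb hab hr1' hr2' (fun x hx => ⟨⟨x, (mem_fix h x).2 (by rw [hh]; exact hx)⟩, rfl⟩)
    leo1 leo2 leo3

end Pool.Agent.Leo4.H33
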