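import Mathlib
import Pool.Agent.Leo4.Stmts
import Pool.Agent.Helper59_Leo3.Hil

/-!
# Squad leo4, module HIL: Hilbert's Theorem 94 for cyclic cubic extensions, with unit ranks

Let `L / K` be cyclic of degree 3, unramified at all finite places, with `3 r_K < r_L` and without
cube roots of unity in `K`.  If `3` does not divide the class number of `K` then every unit of norm
`1` is of the form `e / σ e` with a unit `e`.  On `V = E_L / E_L ^ 3` the endomorphism `D = σ - 1`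
satisfies `D ^ 3 = 0`, and its kernel is the image of `E_K / E_K ^ 3`.  So `r_L ≤ 3 r_K`.
-/

set_option autoImplicit false

open NumberField IsDedekindDomain WithZero Module
open scoped nonZeroDivisors
open Pool.Agent.Leo3.H59

namespace Pool.Agent.Leo4.H33

/-- a nilpotent endomorphism of order 3 of a finite commutative group -/
theorem card_le {V : Type} [CommGroup V] [Finite V] (D : V →* V) (h : ∀ x, D (D (D x)) = 1) :
    Nat.card V ≤ Nat.card D.ker ^ 3 := by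
  have h1 : Nat.card V = Nat.card D.ker * Nat.card D.range := by
    rw [← Subgroup.card_mul_index D.ker, Subgroup.index_ker]
  obtain ⟨D1, hD1⟩ : ∃ D1 : D.range →* V, ∀ x, D1 x = D (x : V) :=
    ⟨D.comp D.range.subtype, fun _ => rfl⟩
  have h2 : Nat.card D.range = Nat.card D1.ker * Nat.card D1.range := by
    rw [← Subgroup.card_mul_index D1.ker, Subgroup.index_ker]
  have h3 : Nat.card D1.ker ≤ Nat.card D.ker := by
    refine Nat.card_le_card_of_injective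
      (fun x => (⟨((x : D.range) : V), ?_⟩ : D.ker)) ?_
    · rw [MonoidHom.mem_ker, ← hD1]
      exact x.2
    · intro x y hxy
      have := congrArg (fun z : D.ker => (z : V)) hxy
      exact Subtype.ext (Subtype.ext this)
  have h4 : Nat.card D1.range ≤ Nat.card D.ker := by
    refine Nat.card_le_card_of_injective (fun x => (⟨(x : V), ?_⟩ : D.ker)) ?_
    · obtain ⟨y, hy⟩ := x.2
      obtain ⟨z, hz⟩ := y.2
      rw [MonoidHom.mem_ker, ← hy, hD1, ← hz]
      exact h z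
    · intro x y hxy
      have := congrArg (fun z : D.ker => (z : V)) hxy
      exact Subtype.ext this
  rw [h1, h2]
  calc Nat.card D.ker * (Nat.card D1.ker * Nat.card D1.range) ≤
      Nat.card D.ker * (Nat.card D.ker * Nat.card D.ker) :=
        Nat.mul_le_mul_left _ (Nat.mul_le_mul h3 h4)
    _ = Nat.card D.ker ^ 3 := by ring

theorem finite_of_fg_tors {G : Type} [CommGroup G] [Group.FG G] (h : ∀ x : G, x ^ 3 = 1) :
    Finite G := by
  have : IsMulTorsion G := fun x => isOfFinOrder_iff_pow_eq_one.2 ⟨3, by norm_num, h x⟩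
  exact CommGroup.finite_of_fg_isMulTorsion G this

theorem cg {E : Type} [CommGroup E] (a b c : E) :
    (b / c) ^ 3 = ((a / c) / (c / b)) / ((c / b) / (b / a)) := by
  have key : ∀ (A : Type) [AddCommGroup A] (a b c : A),
      (3 : ℕ) • (b - c) = ((a - c) - (c - b)) - ((c - b) - (b - a)) := by
    intros
    abel
  exact key (Additive E) a b c

/-- representatives of the units modulo cubes -/
theorem unit_rep {K : Type} [Field K] [NumberField K] (hmu : ∀ x : K, x ^ 3 = 1 → x = 1)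
    (u : (𝓞 K)ˣ) : ∃ (s : Fin (Units.rank K) → Fin 3) (t : (𝓞 K)ˣ),
      u = (∏ i, Units.fundSystem K i ^ (s i : ℕ)) * t ^ 3 := by
  classical
  have hco : Nat.Coprime (Nat.card (Units.torsion K)) 3 := by
    rw [Nat.coprime_comm, Nat.Prime.coprime_iff_not_dvd Nat.prime_three]
    intro h
    have : Fact (Nat.Prime 3) := ⟨Nat.prime_three⟩
    obtain ⟨ζ, hζ⟩ := exists_prime_orderOf_dvd_card' 3 h
    have h1 : ζ ^ 3 = 1 := by rw [← hζ]; exact pow_orderOf_eq_one ζ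
    have h2 : algebraMap (𝓞 K) K ((ζ : (𝓞 K)ˣ) : 𝓞 K) ^ 3 = 1 := by
      rw [← map_pow, ← Units.val_pow_eq_pow_val, ← SubmonoidClass.coe_pow, h1]
      simp
    have h3 := hmu _ h2
    have h4 : ζ = 1 := by
      refine Subtype.ext (Units.ext (RingOfIntegers.ext ?_))
      show algebraMap (𝓞 K) K ((ζ : (𝓞 K)ˣ) : 𝓞 K) = algebraMap (𝓞 K) K 1
      rw [h3, map_one]
    rw [h4, orderOf_one] at hζ
    norm_num at hζ
  obtain ⟨⟨ζ, f⟩, hf, _⟩ := Units.exist_unique_eq_mul_prod K u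
  obtain ⟨ξ, hξ⟩ : ∃ ξ : Units.torsion K, ξ ^ 3 = ζ := (powCoprime hco).surjective ζ
  refine ⟨fun i => ⟨(f i % 3).toNat, by omega⟩,
    (ξ : (𝓞 K)ˣ) * ∏ i, Units.fundSystem K i ^ (f i / 3), ?_⟩
  simp only at hf
  have h1 : ∀ i, Units.fundSystem K i ^ (f i) =
      Units.fundSystem K i ^ ((f i % 3).toNat) * (Units.fundSystem K i ^ (f i / 3)) ^ 3 := by
    intro i
    rw [← zpow_natCast, ← zpow_natCast (Units.fundSystem K i ^ (f i / 3)), ← zpow_mul, ← zpow_add]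
    congr 1
    push_cast
    omega
  rw [hf, Finset.prod_congr rfl (fun i _ => h1 i), Finset.prod_mul_distrib, Finset.prod_pow,
    mul_pow, ← hξ, SubmonoidClass.coe_pow]
  exact mul_left_comm _ _ _

/-- the units modulo cubes have at least `3 ^ rank` elements -/
theorem card_ge {L : Type} [Field L] [NumberField L] :
    3 ^ Units.rank L ≤ Nat.card ((𝓞 L)ˣ ⧸ (powMonoidHom 3 : (𝓞 L)ˣ →* (𝓞 L)ˣ).range) ∧
      Finite ((𝓞 L)ˣ ⧸ (powMonoidHom 3 : (𝓞 L)ˣ →* (𝓞 L)ˣ).range) := by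
  classical
  have hfin : Finite ((𝓞 L)ˣ ⧸ (powMonoidHom 3 : (𝓞 L)ˣ →* (𝓞 L)ˣ).range) := by
    have hfg : Group.FG (𝓞 L)ˣ := Group.fg_iff_monoid_fg.2 inferInstance
    have : Group.FG ((𝓞 L)ˣ ⧸ (powMonoidHom 3 : (𝓞 L)ˣ →* (𝓞 L)ˣ).range) :=
      QuotientGroup.fg _
    apply finite_of_fg_tors
    intro x
    obtain ⟨y, rfl⟩ := QuotientGroup.mk_surjective x
    rw [← QuotientGroup.mk_pow, QuotientGroup.eq_one_iff]
    exact ⟨y, rfl⟩
  refine ⟨?_, hfin⟩
  have h0 : Nat.card (Fin (Units.rank L) → Fin 3) = 3 ^ Units.rank L := by simp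
  rw [← h0]
  refine Nat.card_le_card_of_injective (fun s => (QuotientGroup.mk
    (∏ i, Units.fundSystem L i ^ (s i : ℕ)) :
    (𝓞 L)ˣ ⧸ (powMonoidHom 3 : (𝓞 L)ˣ →* (𝓞 L)ˣ).range)) ?_
  intro s s' hss
  have h1 := QuotientGroup.eq.1 hss
  obtain ⟨t, ht⟩ := h1
  have ht' : t ^ 3 = (∏ i, Units.fundSystem L i ^ (s i : ℕ))⁻¹ *
      ∏ i, Units.fundSystem L i ^ (s' i : ℕ) := ht
  obtain ⟨⟨ζ, f⟩, hf, _⟩ := Units.exist_unique_eq_mul_prod L t
  simp only at hf
  obtain ⟨_, _, huniq⟩ := Units.exist_unique_eq_mul_prod L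
    (∏ i, Units.fundSystem L i ^ (s' i : ℕ))
  have u1 := huniq (1, fun i => (s' i : ℕ)) (by
    simp only [OneMemClass.coe_one, one_mul, zpow_natCast])
  have u2 := huniq (ζ ^ 3, fun i => ((s i : ℕ) : ℤ) + 3 * f i) (by
    have h2 : (∏ i, Units.fundSystem L i ^ (s' i : ℕ)) =
        (∏ i, Units.fundSystem L i ^ (s i : ℕ)) * t ^ 3 := by
      rw [ht', mul_inv_cancel_left]
    simp only
    rw [h2, hf, mul_pow, ← Finset.prod_pow, SubmonoidClass.coe_pow, mul_left_comm,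
      ← Finset.prod_mul_distrib]
    congr 1
    refine Finset.prod_congr rfl fun i _ => ?_
    rw [zpow_add, zpow_natCast, mul_comm (3 : ℤ), zpow_mul]
    rfl)
  have u3 := u1.trans u2.symm
  funext i
  have u4 := congrFun (Prod.ext_iff.1 u3).2 i
  simp only at u4
  have := (s i).2
  have := (s' i).2
  apply Fin.ext
  omega

/-- units of norm 1 -/
theorem claim' {K L : Type} [Field K] [NumberField K] [Field L] [NumberField L] [Algebra K L]
    [IsGalois K L] (σ : L ≃ₐ[K] L) (hσ : ∀ x, x ∈ Subgroup.zpowers σ) (ho : orderOf σ = 3)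
    (hun : ∀ (P : Ideal (𝓞 L)) [P.IsPrime], P ≠ ⊥ → Algebra.IsUnramifiedAt (𝓞 K) P)
    (h3 : ¬ 3 ∣ Fintype.card (ClassGroup (𝓞 K)))
    (η : L) (hη : UU η) (hn1 : Algebra.norm K η = 1) : ∃ e : L, UU e ∧ η = e / σ e := by
  have hs : ∀ x : L, UU x → UU (σ x) := fun x hx => hx.map (σ : L →+* L)
  have hcyc : IsCyclic (L ≃ₐ[K] L) := ⟨σ, hσ⟩
  obtain ⟨y, hy⟩ := groupCohomology.exists_div_of_norm_eq_one hσ hn1
  have hy0 : (y : L) ≠ 0 := y.ne_zero
  have hsy0 : σ (y : L) ≠ 0 := by simp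
  have hU2 := hs _ hη
  have e1 : σ (y : L) = y / η := by
    rw [← hy]
    field_simp
  have e2 : σ (σ (y : L)) = y / (η * σ η) := by
    rw [e1, map_div₀, e1]
    field_simp
  have hz : algebraMap K L (Algebra.norm K (y : L)) = (y : L) ^ 3 * (η ^ 2 * σ η)⁻¹ := by
    rw [norm_three σ hσ ho, e2, e1]
    have := hη.1
    have := hU2.1
    field_simp
  have hz0 : Algebra.norm K (y : L) ≠ 0 := by
    intro h0
    rw [h0, map_zero] at hz
    exact mul_ne_zero (pow_ne_zero 3 hy0) ((hη.pow 2).mul hU2).inv.1 hz.symm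
  obtain ⟨x, v, hx0, hv, hxv⟩ := cube_of_val h3 _ hz0
    (val_cube hun _ y _ ((hη.pow 2).mul hU2).inv hz)
  have hX0 : algebraMap K L x ≠ 0 := by simpa using hx0
  obtain ⟨e, he⟩ : ∃ e : L, e = (y : L) / algebraMap K L x := ⟨_, rfl⟩
  have h6 : e ^ 3 = algebraMap K L v * (η ^ 2 * σ η) := by
    have h7 : algebraMap K L x ^ 3 * algebraMap K L v = (y : L) ^ 3 * (η ^ 2 * σ η)⁻¹ := by
      rw [← hz, hxv, map_mul, map_pow]
    have h8 := ((hη.pow 2).mul hU2).1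
    rw [he, div_pow, div_eq_iff (pow_ne_zero 3 hX0)]
    rw [← div_eq_mul_inv] at h7
    rw [eq_div_iff h8] at h7
    linear_combination -h7
  have hUe : UU e := by
    refine UU.of_pow (n := 3) (by norm_num) ?_
    rw [h6]
    exact (hv.map (algebraMap K L)).mul ((hη.pow 2).mul hU2)
  refine ⟨e, hUe, ?_⟩
  rw [← hy, he, map_div₀, σ.commutes]
  field_simp

theorem hil : HilStmt := by
  classical
  intro K L _ _ _ _ _ _ hdeg hun hrank hmu
  by_contra h3
  -- the Galois group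
  have hcard : Nat.card (L ≃ₐ[K] L) = 3 := by rw [IsGalois.card_aut_eq_finrank, hdeg]
  have : Fact (Nat.Prime 3) := ⟨Nat.prime_three⟩
  have hcyc : IsCyclic (L ≃ₐ[K] L) := isCyclic_of_prime_card hcard
  obtain ⟨σ, hσ⟩ := hcyc.exists_generator
  have ho : orderOf σ = 3 := by rw [orderOf_eq_card_of_forall_mem_zpowers hσ, hcard]
  have hs3 : ∀ x : L, σ (σ (σ x)) = x := by
    intro x
    have h1 : σ ^ 3 = 1 := by rw [← ho]; exact pow_orderOf_eq_one σ
    have h2 := DFunLike.congr_fun h1 x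
    rw [pow_succ, pow_two] at h2
    exact h2
  -- the action on the units
  obtain ⟨S, hS⟩ : ∃ S : (𝓞 L)ˣ →* (𝓞 L)ˣ, ∀ u : (𝓞 L)ˣ,
      algebraMap (𝓞 L) L (S u : 𝓞 L) = σ (algebraMap (𝓞 L) L (u : 𝓞 L)) :=
    ⟨Units.map (RingOfIntegers.mapRingHom (σ : L →+* L)).toMonoidHom, fun u => rfl⟩
  have hinj : ∀ u v : (𝓞 L)ˣ, algebraMap (𝓞 L) L (u : 𝓞 L) = algebraMap (𝓞 L) L (v : 𝓞 L) →
      u = v := fun u v h => Units.ext (RingOfIntegers.ext h)
  obtain ⟨D, hD⟩ : ∃ D : (𝓞 L)ˣ →* (𝓞 L)ˣ, ∀ u : (𝓞 L)ˣ, D u = S u / u :=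
    ⟨S / MonoidHom.id _, fun u => rfl⟩
  obtain ⟨H, hH⟩ : ∃ H : Subgroup (𝓞 L)ˣ, H = (powMonoidHom 3 : (𝓞 L)ˣ →* (𝓞 L)ˣ).range :=
    ⟨_, rfl⟩
  have hmemH : ∀ u : (𝓞 L)ˣ, u ∈ H ↔ ∃ t : (𝓞 L)ˣ, t ^ 3 = u := by
    intro u
    rw [hH]
    rfl
  obtain ⟨hge, hfin⟩ := card_ge (L := L)
  rw [← hH] at hge hfin
  have hDH : H ≤ H.comap D := by
    intro u hu
    obtain ⟨t, rfl⟩ := (hmemH u).1 hu
    rw [Subgroup.mem_comap, hmemH]
    exact ⟨D t, (map_pow D t 3).symm⟩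
  obtain ⟨DV, hDV⟩ : ∃ DV : (𝓞 L)ˣ ⧸ H →* (𝓞 L)ˣ ⧸ H, ∀ u : (𝓞 L)ˣ,
      DV (QuotientGroup.mk u) = QuotientGroup.mk (D u) :=
    ⟨QuotientGroup.map H H D hDH, fun u => rfl⟩
  have hS3 : ∀ u, S (S (S u)) = u := by
    intro u
    apply hinj
    rw [hS, hS, hS, hs3]
  have hD3 : ∀ x, DV (DV (DV x)) = 1 := by
    intro x
    obtain ⟨u, rfl⟩ := QuotientGroup.mk_surjective x
    rw [hDV, hDV, hDV, QuotientGroup.eq_one_iff, hmemH]
    refine ⟨S u / S (S u), ?_⟩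
    rw [hD (D (D u)), hD (D u), hD u, map_div, map_div, map_div, hS3]
    exact cg u (S u) (S (S u))
  have hle := card_le (V := (𝓞 L)ˣ ⧸ H) DV hD3
  obtain ⟨iK, hiK⟩ : ∃ iK : (𝓞 K)ˣ →* (𝓞 L)ˣ, ∀ u : (𝓞 K)ˣ,
      algebraMap (𝓞 L) L (iK u : 𝓞 L) = algebraMap K L (algebraMap (𝓞 K) K (u : 𝓞 K)) :=
    ⟨Units.map (algebraMap (𝓞 K) (𝓞 L)).toMonoidHom, fun u => rfl⟩
  have hrep : ∀ x : DV.ker, ∃ s : Fin (Units.rank K) → Fin 3,
      (QuotientGroup.mk (iK (∏ i, Units.fundSystem K i ^ (s i : ℕ))) : (𝓞 L)ˣ ⧸ H) = x := by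
    rintro ⟨x, hx⟩
    obtain ⟨u, rfl⟩ := QuotientGroup.mk_surjective x
    rw [MonoidHom.mem_ker, hDV, QuotientGroup.eq_one_iff, hmemH] at hx
    obtain ⟨t, ht⟩ := hx
    rw [hD] at ht
    have hU := UU_unit u
    have hT := UU_unit t
    obtain ⟨U, hUe⟩ : ∃ U : L, U = algebraMap (𝓞 L) L (u : 𝓞 L) := ⟨_, rfl⟩
    obtain ⟨T, hTe⟩ : ∃ T : L, T = algebraMap (𝓞 L) L (t : 𝓞 L) := ⟨_, rfl⟩
    rw [← hUe] at hU
    rw [← hTe] at hT
    have hTU : T ^ 3 * U = σ U := by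
      have h1 : t ^ 3 * u = S u := by rw [ht, div_mul_cancel]
      have h2 := congrArg (fun z : (𝓞 L)ˣ => algebraMap (𝓞 L) L (z : 𝓞 L)) h1
      simp only [Units.val_mul, Units.val_pow_eq_pow_val, map_mul, map_pow, hS] at h2
      rw [hUe, hTe]
      exact h2
    have hU0 := hU.1
    have hs0 : ∀ x : L, x ≠ 0 → σ x ≠ 0 := fun x hx h => hx ((map_eq_zero σ).1 h)
    have hN : Algebra.norm K T = 1 := by
      apply hmu
      apply (algebraMap K L).injective
      rw [map_pow, norm_three σ hσ ho, map_one]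
      have h1 : σ T ^ 3 * σ U = σ (σ U) := by rw [← map_pow, ← map_mul, hTU]
      have h2 : σ (σ T) ^ 3 * σ (σ U) = U := by
        rw [← map_pow, ← map_mul, h1, hs3]
      have h3 : (T * σ T * σ (σ T)) ^ 3 * U = U := by
        calc (T * σ T * σ (σ T)) ^ 3 * U = σ (σ T) ^ 3 * (σ T ^ 3 * (T ^ 3 * U)) := by ring
          _ = U := by rw [hTU, h1, h2]
      exact mul_right_cancel₀ hU0 (by rw [h3, one_mul])
    obtain ⟨e, he, hTe'⟩ := claim' σ hσ ho hun h3 T hT hN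
    have he0 := he.1
    have hfix : σ (U * e ^ 3) = U * e ^ 3 := by
      rw [map_mul, map_pow, ← hTU, hTe']
      have := hs0 e he0
      field_simp
    have hfix' : ∀ f : L ≃ₐ[K] L, f (U * e ^ 3) = U * e ^ 3 := by
      intro f
      obtain ⟨n, rfl⟩ := Subgroup.mem_zpowers_iff.1 (hσ f)
      have hst : σ ∈ MulAction.stabilizer (L ≃ₐ[K] L) (U * e ^ 3) := hfix
      exact Subgroup.zpow_mem _ hst n
    obtain ⟨z, hz⟩ := (IsGalois.mem_range_algebraMap_iff_fixed (F := K) (E := L) _).2 hfix'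
    have hzU : UU z := by
      refine UU.of_map (L := L) ?_
      rw [hz]
      exact hU.mul (he.pow 3)
    obtain ⟨v, hv⟩ := hzU.exists_unit
    obtain ⟨w, hw⟩ := he.exists_unit
    obtain ⟨s, t', hst⟩ := unit_rep hmu v
    refine ⟨s, ?_⟩
    have h1 : u = iK (∏ i, Units.fundSystem K i ^ (s i : ℕ)) * (iK t' / w) ^ 3 := by
      have h2 : u * w ^ 3 = iK v := by
        apply hinj
        rw [hiK, hv, hz, Units.val_mul, Units.val_pow_eq_pow_val, map_mul, map_pow, hw, hUe]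
      rw [div_pow, ← map_pow, mul_div_assoc', ← map_mul, ← hst, ← h2, mul_div_cancel_right]
    refine (QuotientGroup.eq (s := H)).2 ?_
    rw [hmemH]
    refine ⟨iK t' / w, ?_⟩
    conv_rhs => rw [h1]
    rw [inv_mul_cancel_left]
  have hker : Nat.card DV.ker ≤ 3 ^ Units.rank K := by
    choose g hg using hrep
    have h0 : Nat.card (Fin (Units.rank K) → Fin 3) = 3 ^ Units.rank K := by simp
    rw [← h0]
    refine Nat.card_le_card_of_injective g fun x y hxy => ?_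
    apply Subtype.ext
    rw [← hg x, ← hg y, hxy]
  have h1 : 3 ^ Units.rank L ≤ 3 ^ (3 * Units.rank K) := by
    calc 3 ^ Units.rank L ≤ Nat.card ((𝓞 L)ˣ ⧸ H) := hge
      _ ≤ Nat.card DV.ker ^ 3 := hle
      _ ≤ (3 ^ Units.rank K) ^ 3 := Nat.pow_le_pow_left hker 3
      _ = 3 ^ (3 * Units.rank K) := by rw [← pow_mul, mul_comm]
  have h2 := (Nat.pow_le_pow_iff_right (by norm_num)).1 h1
  omega

end Pool.Agent.Leo4.H33
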